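import Pool.Agent.V1146.GWS.Law
import Pool.Agent.V1146.GWS.SecDiff

open MeasureTheory Set Filter Topology Asymptotics
open scoped ENNReal

namespace Pool.Agent.Results.MP_97806e_pr.FlatNotC2

open Pool.Agent.V1146.GWS

/-- The mean of an offspring distribution. -/
noncomputable def mean (μ : PMF ℕ) : ℝ≥0∞ := ∑' k : ℕ, μ k * (k : ℝ≥0∞)

/-- The critical probability `1 / m`. -/
noncomputable def pc (μ : PMF ℕ) : ℝ := (mean μ).toReal⁻¹

/-- `f` has an order-`k` expansion at `x` from the right. -/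
def HasExpansion (f : ℝ → ℝ) (x : ℝ) (k : ℕ) : Prop :=
  ∃ a : ℕ → ℝ, (fun ε : ℝ => f (x + ε) - ∑ j ∈ Finset.range (k + 1), a j * ε ^ j)
    =o[𝓝[>] 0] fun ε : ℝ => ε ^ k

/-- `f` is of class `C ^ k` at `x` from the right: it is of class `C ^ k` on `[x, x + δ)` for some
`δ > 0`. -/
def IsSmoothRight (f : ℝ → ℝ) (x : ℝ) (k : ℕ) : Prop :=
  ∃ δ : ℝ, 0 < δ ∧ ContDiffOn ℝ k f (Ico x (x + δ))

theorem mean_eq : mean law = 2 := mean_law

theorem pc_eq : pc law = 1 / 2 := by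
  unfold pc
  rw [mean_eq]
  norm_num

theorem small (k : ℕ) : ∃ C : ℝ, ∀ ε : ℝ, 0 < ε → ε < 1 / 2 →
    |annealed law (1 / 2 + ε)| ≤ C * ε ^ (k + 1) := by
  obtain ⟨C, hC, hf⟩ := flat (k + 1)
  refine ⟨2 * (C * 4 ^ (k + 1)), fun ε h0 h1 => ?_⟩
  obtain ⟨hg, hT⟩ := key (p := 1 / 2 + ε) (by linarith) (by linarith)
  set p : ℝ := 1 / 2 + ε with hp
  set g := annealed law p with hgd
  have hp0 : 0 < p := by linarith
  have hg1 : g ≤ 1 := annealed_le_one _ _
  have h2 := hf (p * g) (by positivity) (by nlinarith)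
  rw [hT] at h2
  have h3 : 2 - 1 / p ≤ 4 * ε := by
    have h4 : 1 - 2 * ε ≤ 1 / (2 * p) := by
      rw [le_div_iff₀ (by positivity)]
      nlinarith
    have h5 : 1 / p = 2 * (1 / (2 * p)) := by
      field_simp
    linarith
  have h4 : 0 ≤ 2 - 1 / p := by
    have : 1 / p ≤ 2 := by
      rw [div_le_iff₀ hp0]
      linarith
    linarith
  have h5 : (2 - 1 / p) ^ (k + 1) ≤ (4 * ε) ^ (k + 1) := pow_le_pow_left₀ h4 h3 _
  rw [mul_pow] at h5
  have h6 : C * (2 - 1 / p) ^ (k + 1) ≤ C * (4 ^ (k + 1) * ε ^ (k + 1)) :=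
    mul_le_mul_of_nonneg_left h5 hC.le
  rw [abs_of_pos hg]
  nlinarith

theorem expansion (k : ℕ) : HasExpansion (annealed law) (1 / 2) k := by
  refine ⟨fun _ => 0, ?_⟩
  obtain ⟨C, hC⟩ := small k
  simp only [zero_mul, Finset.sum_const_zero, sub_zero]
  have h1 : (fun ε : ℝ => annealed law (1 / 2 + ε)) =O[𝓝[>] 0] fun ε : ℝ => ε ^ (k + 1) := by
    refine IsBigO.of_bound C ?_
    have h2 : Ioo (0 : ℝ) (1 / 2) ∈ 𝓝[>] (0 : ℝ) := Ioo_mem_nhdsGT (by norm_num)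
    filter_upwards [h2] with ε hε
    rw [Real.norm_eq_abs, Real.norm_eq_abs, abs_of_pos (pow_pos hε.1 _)]
    exact hC ε hε.1 hε.2
  exact h1.trans_isLittleO ((isLittleO_pow_pow (Nat.lt_succ_self k)).mono nhdsWithin_le_nhds)

/-- the function `H(d) = p g(p)`, `p = 1 / (2 - d)` -/
noncomputable def HH (d : ℝ) : ℝ := (2 - d)⁻¹ * annealed law (2 - d)⁻¹

theorem HH_spec {d : ℝ} (h0 : 0 < d) (h1 : d ≤ 1) :
    0 < HH d ∧ HH d ≤ 1 ∧ T (HH d) = 2 - d := by
  have h2 : 0 < 2 - d := by linarith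
  have h3 : 1 / 2 < (2 - d)⁻¹ := by
    rw [one_div]
    exact inv_strictAnti₀ h2 (by linarith)
  have h4 : (2 - d)⁻¹ ≤ 1 := inv_le_one_of_one_le₀ (by linarith)
  obtain ⟨h5, h6⟩ := key h3 h4
  have h7 : annealed law (2 - d)⁻¹ ≤ 1 := annealed_le_one _ _
  refine ⟨mul_pos (by positivity) h5, ?_, ?_⟩
  · unfold HH
    nlinarith
  · show T ((2 - d)⁻¹ * annealed law (2 - d)⁻¹) = 2 - d
    rw [h6, one_div, inv_inv]

theorem HH_nonneg {d : ℝ} (h1 : d ≤ 1) : 0 ≤ HH d :=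
  mul_nonneg (inv_nonneg.2 (by linarith)) (annealed_nonneg _ _)

theorem HH_smooth {δ : ℝ} (hδ : 0 < δ)
    (h : ContDiffOn ℝ 2 (annealed law) (Ico (1 / 2) (1 / 2 + δ))) :
    ContDiffOn ℝ 2 HH (Ico 0 (min 1 δ)) := by
  have h1 : ContDiffOn ℝ 2 (fun d : ℝ => (2 - d)⁻¹) (Ico 0 (min 1 δ)) := by
    refine ContDiffOn.inv (by fun_prop) fun d hd => ?_
    have : d < 1 := lt_of_lt_of_le hd.2 (min_le_left _ _)
    linarith
  refine h1.mul (h.comp h1 fun d hd => ?_)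
  have hd1 : d < 1 := lt_of_lt_of_le hd.2 (min_le_left _ _)
  have hd2 : d < δ := lt_of_lt_of_le hd.2 (min_le_right _ _)
  have hd0 : 0 ≤ d := hd.1
  have h2 : 0 < 2 - d := by linarith
  constructor
  · rw [one_div]
    exact inv_anti₀ h2 (by linarith)
  · rw [← one_div, div_lt_iff₀ h2]
    nlinarith

theorem lt_sc (i : ℕ) : i < sc i := by
  unfold sc
  calc i < 8 ^ i := Nat.lt_pow_self (by norm_num)
    _ < 2 ^ 8 ^ i := Nat.lt_pow_self (by norm_num)

theorem sc_big {i : ℕ} (hi : 1 ≤ i) : 16 * 2 ^ i ≤ sc i := by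
  have h1 : ∀ j : ℕ, 4 + (j + 1) ≤ 8 ^ (j + 1) := by
    intro j
    induction j with
    | zero => norm_num
    | succ j ih =>
      rw [pow_succ]
      omega
  obtain ⟨j, rfl⟩ : ∃ j, i = j + 1 := ⟨i - 1, by omega⟩
  unfold sc
  calc 16 * 2 ^ (j + 1) = 2 ^ (4 + (j + 1)) := by rw [pow_add 2 4]; norm_num
    _ ≤ 2 ^ 8 ^ (j + 1) := Nat.pow_le_pow_right (by norm_num) (h1 j)

theorem not_C2 {δ : ℝ} (hδ : 0 < δ) :
    ¬ ContDiffOn ℝ 2 (annealed law) (Ico (1 / 2) (1 / 2 + δ)) := by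
  intro hc
  obtain ⟨K, η, hη, hK⟩ := second_diff HH (lt_min one_pos hδ) (HH_smooth hδ hc)
  have e1 : ∀ᶠ i : ℕ in atTop, (1 / 2 : ℝ) ^ i < min η 1 / 2 :=
    (tendsto_pow_atTop_nhds_zero_of_lt_one (by norm_num) (by norm_num)).eventually_lt_const
      (by positivity)
  obtain ⟨N, hN⟩ := exists_nat_gt (64 * K)
  obtain ⟨i, hi1, hi2, hi3⟩ := (e1.and ((eventually_ge_atTop N).and (eventually_ge_atTop 1))).exists
  set M : ℝ := ((sc i : ℕ) : ℝ) with hM
  have hM2 : (2 : ℝ) ≤ M := two_le_sc' i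
  have hM0 : 0 < M := by linarith
  have hMK : 64 * K < M := by
    have h1 : (N : ℝ) ≤ i := by exact_mod_cast hi2
    have h2 : (i : ℝ) < M := by
      rw [hM]
      exact_mod_cast lt_sc i
    linarith
  set R : ℝ := (1 / 2) ^ i with hR
  have hR0 : 0 < R := by positivity
  have hRη : 2 * R < η := by
    have := min_le_left η 1
    linarith
  have hR1 : 2 * R < 1 := by
    have := min_le_right η 1
    linarith
  have hRM : 16 / M ^ 3 ≤ R := by
    rw [div_le_iff₀ (by positivity)]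
    have h1 : (16 : ℝ) * 2 ^ i ≤ M := by
      rw [hM]
      exact_mod_cast sc_big hi3
    have h2 : R * 2 ^ i = 1 := by
      rw [hR, ← mul_pow]
      norm_num
    have h3 : 16 = R * (16 * 2 ^ i) := by linear_combination -16 * h2
    have h4 : M ≤ M ^ 3 := by
      have : 1 ≤ M ^ 2 := one_le_pow₀ (by linarith)
      nlinarith
    calc (16 : ℝ) = R * (16 * 2 ^ i) := h3
      _ ≤ R * M ^ 3 := mul_le_mul_of_nonneg_left (h1.trans h4) hR0.le
  have hw0 : 0 < 16 / M ^ 3 := by positivity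
  have h1 := hK R (16 / M ^ 3) (by linarith) hw0 (by linarith)
  have h2 : 0 ≤ HH (R - 16 / M ^ 3) := HH_nonneg (by linarith)
  have hM16 : 16 ≤ M ^ 4 := by
    calc (16 : ℝ) = 2 ^ 4 := by norm_num
      _ ≤ M ^ 4 := pow_le_pow_left₀ (by norm_num) hM2 4
  have h3 : HH R ≤ 2 / M ^ 4 := by
    by_contra hcon
    rw [not_le] at hcon
    obtain ⟨a1, a2, a3⟩ := HH_spec hR0 (by linarith)
    have a4 := T_strict (h := 2 / M ^ 4) (by positivity) hcon a2
    have a5 := T_le (h := 2 / M ^ 4) (by positivity) (hcon.le.trans a2) i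
    rw [← hM, ← hR] at a5
    have a6 : R / (M ^ 8 * (2 / M ^ 4)) = R / 2 * (1 / M ^ 4) := by
      field_simp
    have a7 : 2 / M ^ 4 / 2 = 1 / M ^ 4 := by
      field_simp
    rw [a6, a7] at a5
    have a8 : 0 < 1 / M ^ 4 := by positivity
    nlinarith
  have h4 : 8 / M ^ 4 ≤ HH (R + 16 / M ^ 3) := by
    by_contra hcon
    rw [not_le] at hcon
    obtain ⟨a1, a2, a3⟩ := HH_spec (d := R + 16 / M ^ 3) (by linarith) (by linarith)
    have b1 : 8 / M ^ 4 ≤ 1 := by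
      rw [div_le_one (by positivity)]
      linarith
    have a4 := T_strict a1.le hcon b1
    have a5 := T_ge (h := 8 / M ^ 4) (by positivity) b1 i
    rw [← hM, ← hR] at a5
    have a6 : 2 * M * (8 / M ^ 4) = 16 / M ^ 3 := by
      field_simp
      ring
    linarith
  have h5 : 4 / M ^ 4 ≤ K * (16 / M ^ 3) ^ 2 := by
    have h6 : 8 / M ^ 4 = 4 / M ^ 4 + 2 * (2 / M ^ 4) := by ring
    linarith
  have h6 : K * (16 / M ^ 3) ^ 2 = 256 * K / M ^ 6 := by
    field_simp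
    ring
  have h7 : 4 / M ^ 4 = 4 * M ^ 2 / M ^ 6 := by
    field_simp
  rw [h6, h7, div_le_div_iff_of_pos_right (by positivity)] at h5
  nlinarith

/-- **Theorem.** There is an offspring distribution `μ` with mean in `(1, ∞)` such that the annealed
survival function of Bernoulli percolation on the Galton-Watson tree with offspring distribution `μ`
has an order-`k` expansion at `p_c+` for every `k`, but is not of class `C ^ k` at `p_c+` for any
`k ≥ 2`. -/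
theorem result : ∃ μ : PMF ℕ, 1 < mean μ ∧ mean μ < ∞ ∧
    (∀ k : ℕ, HasExpansion (annealed μ) (pc μ) k) ∧
    ∀ k : ℕ, 2 ≤ k → ¬ IsSmoothRight (annealed μ) (pc μ) k := by
  refine ⟨law, ?_, ?_, fun k => ?_, fun k hk => ?_⟩
  · rw [mean_eq]
    norm_num
  · rw [mean_eq]
    norm_num
  · rw [pc_eq]
    exact expansion k
  · rw [pc_eq]
    rintro ⟨δ, hδ, h⟩
    exact not_C2 hδ (h.of_le (by exact_mod_cast hk))

end Pool.Agent.Results.MP_97806e_pr.FlatNotC2
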